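import Pool.Agent.Work.MP_41a257_ag.Main

open MvPolynomial Pool.Agent.Work.MP_41a257_ag

namespace Pool.Agent.Work.MP_41a257_ag.OldSingularStratum

/-- In characteristic `2`, on the affine plane, the equisingular stratum of the complete ideal
`(y ^ 2 + x ^ 5, x ^ 6, x ^ 4 y)` of colength `10` is singular at that ideal. -/
theorem result (k : Type*) [Field k] [IsAlgClosed k] [CharP k 2] :
    ∃ (I₀ : Ideal (MvPolynomial (Fin 2) k)) (b : Fin 10 → MvPolynomial (Fin 2) k)
      (h : I₀ ∈ stratum k (FractionRing (MvPolynomial (Fin 2) k)) I₀ ∩ hilbChart k b),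
      I₀ = Ideal.span {X 1 ^ 2 + X 0 ^ 5, X 0 ^ 6, X 0 ^ 4 * X 1} ∧
      IsComplete I₀ ∧ Module.finrank k (MvPolynomial (Fin 2) k ⧸ I₀) = 10 ∧
      Nat.card (cluster (FractionRing (MvPolynomial (Fin 2) k)) I₀) = 6 ∧
      ¬ IsSmoothPoint k b
        (stratum k (FractionRing (MvPolynomial (Fin 2) k)) I₀ ∩ hilbChart k b) ⟨I₀, h⟩ := by
  have h := fam_mem (k := k) (FractionRing (P2 k)) one_add_zero_pow
  refine ⟨(fam 0).gen, mb k, h, fam_zero_gen, h.1.1, by simpa using finrank_of_chart h.2, ?_,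
    not_smooth _⟩
  rw [← Nat.card_congr ((fam 0).shape (FractionRing (P2 k)) (fam_c3 one_add_zero_pow)).equiv]
  simp

end Pool.Agent.Work.MP_41a257_ag.OldSingularStratum
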